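import Pool.Agent.KDD.Stmts

/-!
# KDD, row LPO: points which reduce to the line of a twin have a non-integral position (helper47)
-/

set_option autoImplicit false

noncomputable section

open Polynomial NumberField H58Q Pool.Agent.SZT Pool.Agent.SZT.B Pool.Agent.KDT Pool.Agent.KDS

namespace Pool.Agent.KDD.H47

section ultra

variable {L : Type} [NormedField L] [IsUltrametricDist L]

lemma nadd_lt {x y : L} {r : ℝ} (hx : ‖x‖ < r) (hy : ‖y‖ < r) : ‖x + y‖ < r :=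
  (IsUltrametricDist.norm_add_le_max x y).trans_lt (max_lt hx hy)

lemma nadd_le {x y : L} {r : ℝ} (hx : ‖x‖ ≤ r) (hy : ‖y‖ ≤ r) : ‖x + y‖ ≤ r :=
  (IsUltrametricDist.norm_add_le_max x y).trans (max_le hx hy)

lemma nsub_lt {x y : L} {r : ℝ} (hx : ‖x‖ < r) (hy : ‖y‖ < r) : ‖x - y‖ < r := by
  rw [sub_eq_add_neg]
  exact nadd_lt hx (by rwa [norm_neg])

lemma nsub_le {x y : L} {r : ℝ} (hx : ‖x‖ ≤ r) (hy : ‖y‖ ≤ r) : ‖x - y‖ ≤ r := by
  rw [sub_eq_add_neg]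
  exact nadd_le hx (by rwa [norm_neg])

lemma nadd_eq {x y : L} (h : ‖y‖ < ‖x‖) : ‖x + y‖ = ‖x‖ := by
  apply le_antisymm
  · exact nadd_le le_rfl h.le
  · by_contra hc
    push Not at hc
    have h1 : ‖(x + y) - y‖ < ‖x‖ := nsub_lt hc h
    rw [add_sub_cancel_right] at h1
    exact lt_irrefl _ h1

omit [IsUltrametricDist L] in
lemma pos_mem {η X₁ : L} (hη0 : η ≠ 0) (hη1 : ‖η‖ < 1) (h1 : Ann ‖η‖ X₁) :
    0 < pos ‖η‖ X₁ ∧ pos ‖η‖ X₁ < 1 := by
  have hp : 0 < ‖η‖ := norm_pos_iff.mpr hη0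
  have hl : Real.log ‖η‖ < 0 := Real.log_neg hp hη1
  have hX1 : 0 < ‖X₁‖ := hp.trans h1.1
  unfold pos
  constructor
  · exact div_pos_of_neg_of_neg (Real.log_neg hX1 h1.2) hl
  · rw [div_lt_one_of_neg hl]
    exact Real.log_lt_log hp h1.1

omit [IsUltrametricDist L] in
lemma pos_add_lt {η X₁ X₂ : L} (hη0 : η ≠ 0) (hη1 : ‖η‖ < 1) (h1 : Ann ‖η‖ X₁)
    (h2 : Ann ‖η‖ X₂) (h : ‖η‖ < ‖X₁‖ * ‖X₂‖) :
    0 < pos ‖η‖ X₁ + pos ‖η‖ X₂ ∧ pos ‖η‖ X₁ + pos ‖η‖ X₂ < 1 := by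
  have hp : 0 < ‖η‖ := norm_pos_iff.mpr hη0
  have hl : Real.log ‖η‖ < 0 := Real.log_neg hp hη1
  have hX1 : 0 < ‖X₁‖ := hp.trans h1.1
  have hX2 : 0 < ‖X₂‖ := hp.trans h2.1
  constructor
  · exact add_pos (pos_mem hη0 hη1 h1).1 (pos_mem hη0 hη1 h2).1
  · unfold pos
    rw [← add_div, ← Real.log_mul hX1.ne' hX2.ne', div_lt_one_of_neg hl]
    exact Real.log_lt_log hp h

omit [IsUltrametricDist L] in
lemma pint_X_sub {c : L} (hc : ‖c‖ ≤ 1) : PInt (X - C c : L[X]) := by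
  intro i
  rw [coeff_sub, coeff_X, coeff_C]
  rcases Nat.lt_trichotomy i 0 with h | h | h
  · omega
  · subst h
    simpa using hc
  · by_cases h1 : i = 1
    · subst h1
      simp
    · rw [if_neg (by omega), if_neg (by omega)]
      simp

lemma pint_mul {p q : L[X]} (hp : PInt p) (hq : PInt q) : PInt (p * q) := by
  intro i
  rw [coeff_mul]
  apply IsUltrametricDist.norm_sum_le_of_forall_le_of_nonneg zero_le_one
  intro x _
  rw [norm_mul]
  exact mul_le_one₀ (hp _) (norm_nonneg _) (hq _)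

lemma pint_eval {p : L[X]} (hp : PInt p) {z : L} (hz : ‖z‖ ≤ 1) : ‖p.eval z‖ ≤ 1 := by
  rw [eval_eq_sum_range]
  apply IsUltrametricDist.norm_sum_le_of_forall_le_of_nonneg zero_le_one
  intro i _
  rw [norm_mul, norm_pow]
  exact mul_le_one₀ (hp _) (by positivity) (pow_le_one₀ (norm_nonneg _) hz)

lemma pint_derivative {p : L[X]} (hp : PInt p) : PInt (derivative p) := by
  intro i
  rw [coeff_derivative, norm_mul]
  apply mul_le_one₀ (hp _) (norm_nonneg _)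
  have := IsUltrametricDist.norm_natCast_le_one L (i + 1)
  push_cast at this
  exact this

/-- integral polynomials are `1`-Lipschitz on the unit disc -/
lemma pint_lip {p : L[X]} (hp : PInt p) {z z' : L} (hz : ‖z‖ ≤ 1) (hz' : ‖z'‖ ≤ 1) :
    ‖p.eval z - p.eval z'‖ ≤ ‖z - z'‖ := by
  rw [eval_eq_sum_range, eval_eq_sum_range, ← Finset.sum_sub_distrib]
  apply IsUltrametricDist.norm_sum_le_of_forall_le_of_nonneg (norm_nonneg _)
  intro i _
  rw [← mul_sub, ← Commute.geom_sum₂_mul (Commute.all z z') i, norm_mul, norm_mul]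
  have h1 : ‖∑ k ∈ Finset.range i, z ^ k * z' ^ (i - 1 - k)‖ ≤ 1 := by
    apply IsUltrametricDist.norm_sum_le_of_forall_le_of_nonneg zero_le_one
    intro k _
    rw [norm_mul, norm_pow, norm_pow]
    exact mul_le_one₀ (pow_le_one₀ (norm_nonneg _) hz) (by positivity)
      (pow_le_one₀ (norm_nonneg _) hz')
  have h2 : ‖p.coeff i‖ * (‖∑ k ∈ Finset.range i, z ^ k * z' ^ (i - 1 - k)‖ * ‖z - z'‖) ≤
      1 * (1 * ‖z - z'‖) := by
    gcongr
    exact hp i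
  simpa using h2

end ultra

section core

variable {L : Type} [NormedField L] [IsUltrametricDist L] [CompleteSpace L]

/-- the two near points have positions with sum in `(0, 1)` if `b₁ ≡ s 0` -/
theorem core (PMU : PmuStmt) (TND : TndStatement) (TCH : TchStatement) (f : L[X])
    (θ : Fin 5 → L) (s : ℕ → L) (hT : Twin f θ) (hs : Sq (hh θ) s) (a₁ a₂ : L) (B : L[X])
    (b₁ b₀ : L) (hB : B = C b₁ * X + C b₀) (hb : ‖b₁ - s 0‖ < 1) (h1 : ‖a₁ - ctr θ‖ < 1)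
    (h2 : ‖a₂ - ctr θ‖ < 1) (hd : (X - C a₁) * (X - C a₂) ∣ B ^ 2 - f) :
    0 < pos ‖eta θ‖ (crd θ s a₁ (B.eval a₁)) + pos ‖eta θ‖ (crd θ s a₂ (B.eval a₂)) ∧
    pos ‖eta θ‖ (crd θ s a₁ (B.eval a₁)) + pos ‖eta θ‖ (crd θ s a₂ (B.eval a₂)) < 1 := by
  obtain ⟨⟨hη0, hη1, hctr⟩, ⟨hhI, hh0, hh1⟩, hfac, ⟨hfI, hfM, hfd⟩⟩ := TND L f θ hT
  obtain ⟨ch1, ch2, ch3⟩ := TCH L f θ s hT hs
  obtain ⟨pm1, pm2, pm3⟩ := PMU L
  have htwo : ‖(2 : L)‖ = 1 := hT.two
  have h20 : (2 : L) ≠ 0 := by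
    intro h
    rw [h, norm_zero] at htwo
    exact zero_ne_one htwo
  have hr1 : B.eval a₁ ^ 2 = f.eval a₁ := by
    have := eval_eq_zero_of_dvd_of_eval_eq_zero hd (x := a₁) (by simp)
    rw [eval_sub, eval_pow] at this
    exact sub_eq_zero.mp this
  have hr2 : B.eval a₂ ^ 2 = f.eval a₂ := by
    have := eval_eq_zero_of_dvd_of_eval_eq_zero hd (x := a₂) (by simp)
    rw [eval_sub, eval_pow] at this
    exact sub_eq_zero.mp this
  obtain ⟨hA1, hx1, hy1, hm1⟩ := ch2 a₁ (B.eval a₁) hr1 h1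
  obtain ⟨hA2, hx2, hy2, hm2⟩ := ch2 a₂ (B.eval a₂) hr2 h2
  apply pos_add_lt hη0 hη1 hA1 hA2
  -- the values of the square root
  have hs0 : pval s 0 = s 0 := by
    have := (pm1 s 0 hs.1 (by simp)).2.2
    rw [norm_zero] at this
    exact sub_eq_zero.mp (norm_le_zero_iff.mp this)
  have hS : ∀ z : L, ‖z‖ < 1 → ‖pval s z‖ = 1 ∧ ‖pval s z - s 0‖ < 1 := by
    intro z hz
    refine ⟨?_, ((pm1 s z hs.1 hz).2.2).trans_lt hz⟩
    have h3 := hh1 z hz
    rw [← hs.2 z hz, norm_pow] at h3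
    exact (pow_eq_one_iff_of_nonneg (norm_nonneg _) two_ne_zero).mp h3
  set z₁ := a₁ - ctr θ with hz1
  set z₂ := a₂ - ctr θ with hz2
  set S₁ := pval s z₁ with hS1
  set S₂ := pval s z₂ with hS2
  set y₁ := B.eval a₁ with hy1d
  set y₂ := B.eval a₂ with hy2d
  obtain ⟨nS1, cS1⟩ := hS z₁ h1
  obtain ⟨nS2, cS2⟩ := hS z₂ h2
  rw [← hS1] at nS1 cS1
  rw [← hS2] at nS2 cS2
  have hS1' : S₁ ≠ 0 := norm_ne_zero_iff.mp (by rw [nS1]; exact one_ne_zero)
  have hS2' : S₂ ≠ 0 := norm_ne_zero_iff.mp (by rw [nS2]; exact one_ne_zero)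
  have hX1 : crd θ s a₁ y₁ = z₁ + y₁ / S₁ := rfl
  have hX2 : crd θ s a₂ y₂ = z₂ + y₂ / S₂ := rfl
  have hX1m : eta θ / crd θ s a₁ y₁ = z₁ - y₁ / S₁ := by
    rw [← hm1]
    change z₁ + -y₁ / S₁ = _
    rw [neg_div, ← sub_eq_add_neg]
  have hX2m : eta θ / crd θ s a₂ y₂ = z₂ - y₂ / S₂ := by
    rw [← hm2]
    change z₂ + -y₂ / S₂ = _
    rw [neg_div, ← sub_eq_add_neg]
  set X₁ := crd θ s a₁ y₁ with hX1d
  set X₂ := crd θ s a₂ y₂ with hX2d
  have hηp : 0 < ‖eta θ‖ := norm_pos_iff.mpr hη0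
  have hX1p : 0 < ‖X₁‖ := hηp.trans hA1.1
  have hX2p : 0 < ‖X₂‖ := hηp.trans hA2.1
  have hX10 : X₁ ≠ 0 := norm_pos_iff.mp hX1p
  have hX20 : X₂ ≠ 0 := norm_pos_iff.mp hX2p
  have hy1n : ‖y₁‖ < 1 := by
    have h3 := (ch1 X₁ hA1).2.2.1
    rw [hy1] at h3
    rw [h3]
    apply nsub_lt hA1.2
    have h4 := (ch1 X₁ hA1).2.2.2.2.1
    exact h4.2
  have hy2n : ‖y₂‖ < 1 := by
    have h3 := (ch1 X₂ hA2).2.2.1
    rw [hy2] at h3
    rw [h3]
    apply nsub_lt hA2.2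
    have h4 := (ch1 X₂ hA2).2.2.2.2.1
    exact h4.2
  have hbS1 : ‖b₁ - S₁‖ < 1 := by
    have : b₁ - S₁ = (b₁ - s 0) - (S₁ - s 0) := by ring
    rw [this]
    exact nsub_lt hb cS1
  by_cases hne : a₁ = a₂
  · -- a double root
    have hz12 : z₂ = z₁ := by rw [hz1, hz2, hne]
    have hX12 : X₂ = X₁ := by rw [hX1d, hX2d, hy1d, hy2d, hne]
    rw [hX12]
    rw [← hne] at hd
    have hder : 2 * y₁ * b₁ = (derivative f).eval a₁ := by
      obtain ⟨q, hq⟩ := hd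
      have h3 := congrArg (fun p : L[X] => (derivative p).eval a₁) hq
      simp only [derivative_sub, derivative_mul, derivative_pow, derivative_X, derivative_C,
        eval_sub, eval_mul, eval_add, eval_X, eval_C, eval_pow, eval_one, eval_zero, sub_self,
        zero_mul, mul_zero, add_zero, sub_zero, one_mul] at h3
      have h4 : (derivative B).eval a₁ = b₁ := by
        rw [hB]
        simp
      rw [h4] at h3
      have h5 := sub_eq_zero.mp h3
      rw [← h5, hy1d]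
      push_cast
      ring
    have hfz : ∀ t : L, f.eval (ctr θ + t) = (t ^ 2 - eta θ) * (hh θ).eval t := hfac
    have hpoly : f.comp (C (ctr θ) + X) = (X ^ 2 - C (eta θ)) * hh θ := by
      have hinf : Infinite L := by
        by_contra hfin
        rw [not_infinite_iff_finite] at hfin
        -- `eta` has infinitely many powers
        have hinj : Function.Injective (fun n : ℕ => (eta θ) ^ n) := by
          intro m n hmn
          have h6 : ‖eta θ‖ ^ m = ‖eta θ‖ ^ n := by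
            rw [← norm_pow, ← norm_pow]
            exact congrArg norm hmn
          exact pow_right_injective₀ hηp hη1.ne h6
        exact not_injective_infinite_finite _ hinj
      apply Polynomial.funext
      intro t
      rw [eval_comp]
      simp only [eval_add, eval_C, eval_X, eval_mul, eval_sub, eval_pow]
      exact hfz t
    have hder2 : (derivative f).eval a₁ =
        2 * z₁ * (hh θ).eval z₁ + (z₁ ^ 2 - eta θ) * (derivative (hh θ)).eval z₁ := by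
      have h3 := congrArg (fun p : L[X] => (derivative p).eval z₁) hpoly
      simp only [derivative_comp, derivative_add, derivative_C, derivative_X, derivative_mul,
        derivative_sub, derivative_pow, eval_mul, eval_add, eval_sub, eval_comp, eval_C, eval_X,
        eval_pow, eval_one, eval_zero, zero_add, sub_zero, one_mul, mul_one] at h3
      have h4 : ctr θ + z₁ = a₁ := by rw [hz1]; ring
      rw [h4] at h3
      rw [h3]
      push_cast
      ring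
    set W := y₁ / S₁ with hW
    have hyW : y₁ = S₁ * W := by
      rw [hW]
      field_simp
    have hprod : z₁ ^ 2 - eta θ = W ^ 2 := by
      have h3 : (z₁ + W) * (z₁ - W) = eta θ := by
        rw [← hX1, ← hX1m]
        field_simp
      rw [← h3]
      ring
    have hSS : (hh θ).eval z₁ = S₁ ^ 2 := (hs.2 z₁ h1).symm
    have hy10 : y₁ ≠ 0 := by
      intro hy0
      have hf0 : f.eval a₁ = 0 := by
        rw [← hr1, hy0]
        ring
      have hf1 : (derivative f).eval a₁ = 0 := by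
        rw [← hder, hy0]
        ring
      -- `f` is separable
      have hsep : f.Separable := by
        rw [hT.fac]
        exact Polynomial.separable_prod_X_sub_C_iff.mpr hT.inj
      obtain ⟨u, v, huv⟩ := hsep
      have h3 := congrArg (fun p : L[X] => p.eval a₁) huv
      simp only [eval_add, eval_mul, hf0, hf1, mul_zero, add_zero, eval_one] at h3
      exact zero_ne_one h3
    have hW0 : W ≠ 0 := div_ne_zero hy10 hS1'
    have hWn : ‖W‖ < 1 := by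
      rw [hW, norm_div, nS1, div_one]
      exact hy1n
    have hWp : 0 < ‖W‖ := norm_pos_iff.mpr hW0
    have key : S₁ * (z₁ - W) = (b₁ - S₁) * W - W ^ 2 * (derivative (hh θ)).eval z₁ / (2 * S₁) := by
      rw [hder2, hprod, hSS, hyW] at hder
      field_simp
      linear_combination -hder
    have hzW : ‖z₁ - W‖ < ‖W‖ := by
      have h3 : ‖S₁ * (z₁ - W)‖ = ‖z₁ - W‖ := by rw [norm_mul, nS1, one_mul]
      rw [← h3, key]
      apply nsub_lt
      · rw [norm_mul]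
        nlinarith
      · rw [norm_div, norm_mul, norm_mul, norm_pow, htwo, nS1, one_mul, div_one]
        have h4 : ‖(derivative (hh θ)).eval z₁‖ ≤ 1 := pint_eval (pint_derivative hhI) h1.le
        have h5 : 0 ≤ ‖(derivative (hh θ)).eval z₁‖ := norm_nonneg _
        nlinarith [mul_pos hWp hWp]
    have hX1n : ‖X₁‖ = ‖W‖ := by
      rw [hX1]
      have h3 : z₁ + W = 2 * W + (z₁ - W) := by ring
      rw [h3, nadd_eq]
      · rw [norm_mul, htwo, one_mul]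
      · rw [norm_mul, htwo, one_mul]
        exact hzW
    have hX1mn : ‖eta θ‖ / ‖X₁‖ < ‖X₁‖ := by
      rw [← norm_div, hX1m]
      change ‖z₁ - W‖ < ‖X₁‖
      rw [hX1n]
      exact hzW
    rwa [div_lt_iff₀ hX1p] at hX1mn
  · -- two different roots
    have hz12 : z₁ - z₂ = a₁ - a₂ := by rw [hz1, hz2]; ring
    have hzne : z₁ - z₂ ≠ 0 := by rw [hz12]; exact sub_ne_zero.mpr hne
    have hzp : 0 < ‖z₁ - z₂‖ := norm_pos_iff.mpr hzne
    have hyy : y₁ - y₂ = b₁ * (z₁ - z₂) := by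
      rw [hz12, hy1d, hy2d, hB]
      simp only [eval_add, eval_mul, eval_C, eval_X]
      ring
    have hSS : ‖S₁ - S₂‖ ≤ ‖z₁ - z₂‖ := by
      have h3 : ‖S₁ + S₂‖ = 1 := by
        have h4 : ‖2 * s 0‖ = 1 := by
          have h5 := (hS 0 (by simp)).1
          rw [hs0] at h5
          rw [norm_mul, htwo, h5, one_mul]
        have h5 : S₁ + S₂ = 2 * s 0 + ((S₁ - s 0) + (S₂ - s 0)) := by ring
        rw [h5, nadd_eq]
        · exact h4
        · rw [h4]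
          exact nadd_lt cS1 cS2
      have h4 : ‖S₁ ^ 2 - S₂ ^ 2‖ ≤ ‖z₁ - z₂‖ := by
        rw [hS1, hS2, hs.2 z₁ h1, hs.2 z₂ h2]
        exact pint_lip hhI h1.le h2.le
      have h5 : S₁ ^ 2 - S₂ ^ 2 = (S₁ + S₂) * (S₁ - S₂) := by ring
      rw [h5, norm_mul, h3, one_mul] at h4
      exact h4
    set R := y₂ * (S₂ - S₁) / (S₁ * S₂) with hR
    have hRn : ‖R‖ < ‖z₁ - z₂‖ := by
      rw [hR, norm_div, norm_mul, norm_mul, nS1, nS2, one_mul, div_one, norm_sub_rev S₂ S₁]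
      have h3 : ‖y₂‖ * ‖S₁ - S₂‖ ≤ ‖y₂‖ * ‖z₁ - z₂‖ :=
        mul_le_mul_of_nonneg_left hSS (norm_nonneg _)
      have h4 : ‖y₂‖ * ‖z₁ - z₂‖ < 1 * ‖z₁ - z₂‖ := mul_lt_mul_of_pos_right hy2n hzp
      linarith
    have hy1' : y₁ = y₂ + b₁ * (z₁ - z₂) := by
      rw [← hyy]
      ring
    have e1 : X₁ - X₂ = 2 * (z₁ - z₂) + ((z₁ - z₂) * ((b₁ - S₁) / S₁) + R) := by
      rw [hX1, hX2, hy1', hR]
      field_simp
      ring
    have e2 : eta θ / X₁ - eta θ / X₂ = -((z₁ - z₂) * ((b₁ - S₁) / S₁) + R) := by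
      rw [hX1m, hX2m, hy1', hR]
      field_simp
      ring
    have hsmall : ‖(z₁ - z₂) * ((b₁ - S₁) / S₁) + R‖ < ‖z₁ - z₂‖ := by
      apply nadd_lt _ hRn
      rw [norm_mul, norm_div, nS1, div_one]
      nlinarith
    have n1 : ‖X₁ - X₂‖ = ‖z₁ - z₂‖ := by
      rw [e1, nadd_eq]
      · rw [norm_mul, htwo, one_mul]
      · rw [norm_mul, htwo, one_mul]
        exact hsmall
    have n2 : ‖eta θ / X₁ - eta θ / X₂‖ < ‖z₁ - z₂‖ := by
      rw [e2, norm_neg]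
      exact hsmall
    have e3 : eta θ / X₁ - eta θ / X₂ = -(eta θ * (X₁ - X₂) / (X₁ * X₂)) := by
      field_simp
      ring
    rw [e3, norm_neg, norm_div, norm_mul, norm_mul, n1, div_lt_iff₀ (mul_pos hX1p hX2p)] at n2
    have : ‖eta θ‖ * ‖z₁ - z₂‖ < (‖X₁‖ * ‖X₂‖) * ‖z₁ - z₂‖ := by linarith
    exact lt_of_mul_lt_mul_right this hzp.le

omit [IsUltrametricDist L] [CompleteSpace L] in
lemma ss_eq (θ : Fin 5 → L) (s : ℕ → L) (a₁ a₂ : L) (B : L[X]) :
    ss θ s ((X - C a₁) * (X - C a₂)) B =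
      (if ‖a₁ - ctr θ‖ < 1 then pos ‖eta θ‖ (crd θ s a₁ (B.eval a₁)) else 0) +
      (if ‖a₂ - ctr θ‖ < 1 then pos ‖eta θ‖ (crd θ s a₂ (B.eval a₂)) else 0) := by
  classical
  unfold ss nz
  rw [roots_mul (mul_ne_zero (X_sub_C_ne_zero a₁) (X_sub_C_ne_zero a₂)), roots_X_sub_C,
    roots_X_sub_C, Multiset.filter_add, Multiset.filter_singleton, Multiset.filter_singleton]
  split_ifs <;> simp

lemma not_int {x : ℝ} (h0 : 0 < x) (h1 : x < 1) (n m : ℤ) : (n : ℝ) + x ≠ m := by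
  intro h
  have h2 : (n : ℝ) < m := by rw [← h]; linarith
  have h3 : (m : ℝ) < n + 1 := by rw [← h]; linarith
  have h4 : n < m := by exact_mod_cast h2
  have h5 : m < n + 1 := by exact_mod_cast h3
  omega

/-- the statement over `L` -/
theorem lcase (PMU : PmuStmt) (TND : TndStatement) (TCH : TchStatement) (f : L[X])
    (θ : Fin 5 → L) (s : ℕ → L) (hT : Twin f θ) (hs : Sq (hh θ) s) (a₁ a₂ : L) (B : L[X])
    (b₁ b₀ g₂ g₃ g₄ : L) (hB : B = C b₁ * X + C b₀) (hd : (X - C a₁) * (X - C a₂) ∣ B ^ 2 - f)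
    (hg3 : ‖g₃‖ ≤ 1) (hg4 : ‖g₄‖ ≤ 1) (hg2 : ‖g₂ - (hh θ).coeff 0‖ < 1) (x₁ x₂ : L)
    (hx1 : x₁ = a₁ - θ 0) (hx2 : x₂ = a₂ - θ 0) (hp : ‖x₁ * x₂‖ < max 1 ‖x₁ + x₂‖)
    (hk : ‖b₁ ^ 2 - (x₁ + x₂) ^ 3 + (x₁ + x₂) * (x₁ * x₂) - g₄ * (x₁ + x₂) ^ 2 -
      g₃ * (x₁ + x₂) - g₂‖ < max 1 ‖x₁ + x₂‖) (m : ℤ) :
    ss θ s ((X - C a₁) * (X - C a₂)) B ≠ m := by
  obtain ⟨⟨hη0, hη1, hctr⟩, ⟨hhI, hh0, hh1⟩, hfac, ⟨hfI, hfM, hfd⟩⟩ := TND L f θ hT
  obtain ⟨ch1, ch2, ch3⟩ := TCH L f θ s hT hs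
  obtain ⟨pm1, pm2, pm3⟩ := PMU L
  have htwo : ‖(2 : L)‖ = 1 := hT.two
  have h20 : (2 : L) ≠ 0 := by
    intro h
    rw [h, norm_zero] at htwo
    exact zero_ne_one htwo
  have hc0 : ‖ctr θ - θ 0‖ < 1 := by
    have h1 : ctr θ - θ 0 = -(θ 0 - θ 1) / 2 := by
      unfold ctr
      field_simp
      ring
    rw [h1, norm_div, norm_neg, htwo, div_one]
    exact hT.near
  have near_iff : ∀ a : L, ‖a - ctr θ‖ < 1 ↔ ‖a - θ 0‖ < 1 := by
    intro a
    constructor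
    · intro h
      have h1 : a - θ 0 = (a - ctr θ) + (ctr θ - θ 0) := by ring
      rw [h1]
      exact nadd_lt h hc0
    · intro h
      have h1 : a - ctr θ = (a - θ 0) - (ctr θ - θ 0) := by ring
      rw [h1]
      exact nsub_lt h hc0
  have hr : ∀ a : L, (a = a₁ ∨ a = a₂) → B.eval a ^ 2 = f.eval a := by
    intro a ha
    have h0 : ((X - C a₁) * (X - C a₂) : L[X]).eval a = 0 := by
      rcases ha with ha | ha <;> simp [ha]
    have := eval_eq_zero_of_dvd_of_eval_eq_zero hd h0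
    rw [eval_sub, eval_pow] at this
    exact sub_eq_zero.mp this
  rw [ss_eq]
  have hpos : ∀ a : L, (a = a₁ ∨ a = a₂) → ‖a - ctr θ‖ < 1 →
      0 < pos ‖eta θ‖ (crd θ s a (B.eval a)) ∧ pos ‖eta θ‖ (crd θ s a (B.eval a)) < 1 := by
    intro a ha h
    exact pos_mem hη0 hη1 (ch2 a _ (hr a ha) h).1
  rcases le_or_gt 1 ‖x₁ + x₂‖ with hs1 | hs1
  · -- exactly one root is near
    rw [max_eq_right hs1, norm_mul] at hp
    have hadd : ‖x₁ + x₂‖ ≤ max ‖x₁‖ ‖x₂‖ := IsUltrametricDist.norm_add_le_max x₁ x₂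
    rcases lt_or_ge ‖x₁‖ 1 with h1 | h1
    · have h2 : 1 ≤ ‖x₂‖ := by
        by_contra hc
        push Not at hc
        exact absurd (nadd_lt h1 hc) (not_lt.mpr hs1)
      rw [hx1] at h1
      rw [hx2] at h2
      rw [if_pos ((near_iff a₁).mpr h1), if_neg (fun h => absurd ((near_iff a₂).mp h) (not_lt.mpr h2)),
        add_zero]
      obtain ⟨p0, p1⟩ := hpos a₁ (Or.inl rfl) ((near_iff a₁).mpr h1)
      have := not_int p0 p1 0 m
      simpa using this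
    · have h2 : ‖x₂‖ < 1 := by
        by_contra hc
        push Not at hc
        rcases le_total ‖x₁‖ ‖x₂‖ with h3 | h3
        · rw [max_eq_right h3] at hadd
          nlinarith
        · rw [max_eq_left h3] at hadd
          nlinarith
      rw [hx1] at h1
      rw [hx2] at h2
      rw [if_neg (fun h => absurd ((near_iff a₁).mp h) (not_lt.mpr h1)), if_pos ((near_iff a₂).mpr h2),
        zero_add]
      obtain ⟨p0, p1⟩ := hpos a₂ (Or.inr rfl) ((near_iff a₂).mpr h2)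
      have := not_int p0 p1 0 m
      simpa using this
  · -- both roots are near
    rw [max_eq_left hs1.le] at hp hk
    have h1 : ‖x₁‖ < 1 := by
      by_contra hc
      push Not at hc
      have h3 : ‖x₂‖ = ‖x₁‖ := by
        have h4 : x₂ = -x₁ + (x₁ + x₂) := by ring
        rw [h4, nadd_eq, norm_neg]
        rw [norm_neg]
        exact hs1.trans_le hc
      rw [norm_mul, h3] at hp
      nlinarith
    have h2 : ‖x₂‖ < 1 := by
      have h4 : x₂ = (x₁ + x₂) - x₁ := by ring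
      rw [h4]
      exact nsub_lt hs1 h1
    have hs0 : pval s 0 = s 0 := by
      have := (pm1 s 0 hs.1 (by simp)).2.2
      rw [norm_zero] at this
      exact sub_eq_zero.mp (norm_le_zero_iff.mp this)
    have hh00 : (hh θ).coeff 0 = s 0 ^ 2 := by
      rw [coeff_zero_eq_eval_zero, ← hs.2 0 (by simp), hs0]
    have hb2 : ‖b₁ ^ 2 - s 0 ^ 2‖ < 1 := by
      rw [← hh00]
      have e : b₁ ^ 2 - (hh θ).coeff 0 = (b₁ ^ 2 - (x₁ + x₂) ^ 3 + (x₁ + x₂) * (x₁ * x₂) -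
          g₄ * (x₁ + x₂) ^ 2 - g₃ * (x₁ + x₂) - g₂) + ((x₁ + x₂) * ((x₁ + x₂) ^ 2 - x₁ * x₂ +
          g₄ * (x₁ + x₂) + g₃) + (g₂ - (hh θ).coeff 0)) := by ring
      rw [e]
      apply nadd_lt hk
      apply nadd_lt _ hg2
      rw [norm_mul]
      have h3 : ‖(x₁ + x₂) ^ 2 - x₁ * x₂ + g₄ * (x₁ + x₂) + g₃‖ ≤ 1 := by
        apply nadd_le _ hg3
        apply nadd_le
        · apply nsub_le
          · rw [norm_pow]
            exact pow_le_one₀ (norm_nonneg _) hs1.le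
          · exact hp.le
        · rw [norm_mul]
          exact mul_le_one₀ hg4 (norm_nonneg _) hs1.le
      exact mul_lt_one_of_nonneg_of_lt_one_left (norm_nonneg _) hs1 h3
    have e2 : b₁ ^ 2 - s 0 ^ 2 = (b₁ - s 0) * (b₁ + s 0) := by ring
    rw [e2, norm_mul] at hb2
    rw [hx1] at h1
    rw [hx2] at h2
    have n1 := (near_iff a₁).mpr h1
    have n2 := (near_iff a₂).mpr h2
    rw [if_pos n1, if_pos n2]
    rcases lt_or_ge ‖b₁ - s 0‖ 1 with hb | hb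
    · obtain ⟨p0, p1⟩ := core PMU TND TCH f θ s hT hs a₁ a₂ B b₁ b₀ hB hb n1 n2 hd
      have := not_int p0 p1 0 m
      simpa using this
    · have hb' : ‖-b₁ - s 0‖ < 1 := by
        have e3 : -b₁ - s 0 = -(b₁ + s 0) := by ring
        rw [e3, norm_neg]
        by_contra hc
        push Not at hc
        nlinarith
      obtain ⟨p0, p1⟩ := core PMU TND TCH f θ s hT hs a₁ a₂ (-B) (-b₁) (-b₀)
        (by rw [hB]; simp only [map_neg]; ring) hb' n1 n2 (by rw [neg_sq]; exact hd)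
      rw [eval_neg, eval_neg] at p0 p1
      obtain ⟨hA1, -, -, hm1⟩ := ch2 a₁ (B.eval a₁) (hr a₁ (Or.inl rfl)) n1
      obtain ⟨hA2, -, -, hm2⟩ := ch2 a₂ (B.eval a₂) (hr a₂ (Or.inr rfl)) n2
      rw [hm1, hm2, (ch1 _ hA1).2.2.2.2.2.2.2.1, (ch1 _ hA2).2.2.2.2.2.2.2.1] at p0 p1
      have := not_int (x := pos ‖eta θ‖ (crd θ s a₁ (B.eval a₁)) +
        pos ‖eta θ‖ (crd θ s a₂ (B.eval a₂)) - 1) (by linarith) (by linarith) 1 m
      intro h
      apply this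
      push_cast
      linarith

end core

/-- **Row LPO**. -/
theorem lpo (TND : TndStatement) (TCH : TchStatement) (PMU : SZT.B.PmuStmt)
    (SHE : KDS.SheStatement) : LpoStatement := by
  intro Ω L _ _ _ _ _ j w f θ s hw hT hs hf hfd A B l hM hA h2 h3 m hm
  have hff : f = ∏ i, (X - C (θ i)) := by
    apply Polynomial.map_injective j j.injective
    rw [hT.fac, Polynomial.map_prod]
    simp
  -- the roots of `A`
  have hA0 : A.degree ≠ 0 := by
    rw [Polynomial.degree_eq_natDegree hM.monic.ne_zero, hA]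
    decide
  obtain ⟨a₁, ha₁⟩ := IsAlgClosed.exists_root A hA0
  obtain ⟨q, hq⟩ := dvd_iff_isRoot.mpr ha₁
  have hqm : q.Monic := by
    have := hM.monic
    rw [hq] at this
    exact (monic_X_sub_C a₁).of_mul_monic_left this
  have hqd : q.natDegree = 1 := by
    have h4 := hA
    rw [hq, (monic_X_sub_C a₁).natDegree_mul hqm, natDegree_X_sub_C] at h4
    omega
  obtain ⟨a₂, ha₂⟩ : ∃ a₂ : Ω, q = X - C a₂ := by
    refine ⟨-q.coeff 0, ?_⟩
    rw [map_neg, sub_neg_eq_add]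
    exact hqm.eq_X_add_C hqd
  have hAA : A = (X - C a₁) * (X - C a₂) := by rw [hq, ha₂]
  obtain ⟨b₁, b₀, hBB⟩ : ∃ b₁ b₀ : Ω, B = C b₁ * X + C b₀ := by
    refine ⟨B.coeff 1, B.coeff 0, ?_⟩
    apply Polynomial.eq_X_add_C_of_degree_le_one
    have h4 := hM.deg
    rw [Polynomial.degree_eq_natDegree hM.monic.ne_zero, hA] at h4
    exact Order.le_of_lt_succ h4
  obtain ⟨-, -, she, -⟩ := SHE Ω f (θ 0) hf hfd
  have hk := she A B hM.monic hA hM.deg
  rw [← hk] at h2 h3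
  set x₁ := a₁ - θ 0 with hx1
  set x₂ := a₂ - θ 0 with hx2
  have hA' : A.comp (X + C (θ 0)) = X ^ 2 + C (-(x₁ + x₂)) * X + C (x₁ * x₂) := by
    rw [hAA, hx1, hx2]
    simp only [mul_comp, sub_comp, X_comp, C_comp, map_neg, map_add, map_sub, map_mul]
    ring
  have hB' : B.comp (X + C (θ 0)) = C b₁ * X + C (b₁ * θ 0 + b₀) := by
    rw [hBB]
    simp only [mul_comp, add_comp, X_comp, C_comp, map_add, map_mul]
    ring
  set d₁ := θ 1 - θ 0 with hd1
  set d₂ := θ 2 - θ 0 with hd2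
  set d₃ := θ 3 - θ 0 with hd3
  set d₄ := θ 4 - θ 0 with hd4
  set g₄ := -(d₁ + d₂ + d₃ + d₄) with hg4
  set g₃ := d₁ * d₂ + d₁ * d₃ + d₁ * d₄ + d₂ * d₃ + d₂ * d₄ + d₃ * d₄ with hg3
  set g₂ := -(d₁ * (d₂ * d₃ + d₂ * d₄ + d₃ * d₄) + d₂ * d₃ * d₄) with hg2
  have hg : f.comp (X + C (θ 0)) = X ^ 5 + C g₄ * X ^ 4 + C g₃ * X ^ 3 + C g₂ * X ^ 2 +
      C (d₁ * d₂ * d₃ * d₄) * X := by
    rw [hff, hg2, hg3, hg4, hd1, hd2, hd3, hd4, Fin.prod_univ_five]
    simp only [mul_comp, sub_comp, X_comp, C_comp, map_neg, map_add, map_sub, map_mul]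
    ring
  have cA0 : (A.comp (X + C (θ 0))).coeff 0 = x₁ * x₂ := by
    rw [hA']
    simp
  have cA1 : (A.comp (X + C (θ 0))).coeff 1 = -(x₁ + x₂) := by
    rw [hA']
    simp [coeff_X, coeff_C, coeff_X_pow]
  have cB1 : (B.comp (X + C (θ 0))).coeff 1 = b₁ := by
    rw [hB']
    simp [coeff_X, coeff_C]
  have cg2 : (f.comp (X + C (θ 0))).coeff 2 = g₂ := by
    rw [hg]
    simp [coeff_X, coeff_X_pow]
  have cg3 : (f.comp (X + C (θ 0))).coeff 3 = g₃ := by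
    rw [hg]
    simp [coeff_X, coeff_X_pow]
  have cg4 : (f.comp (X + C (θ 0))).coeff 4 = g₄ := by
    rw [hg]
    simp [coeff_X, coeff_X_pow]
  have hkum : kum (f.comp (X + C (θ 0))) (A.comp (X + C (θ 0))) (B.comp (X + C (θ 0))) =
      ![1, x₁ + x₂, x₁ * x₂, b₁ ^ 2 - (x₁ + x₂) ^ 3 + (x₁ + x₂) * (x₁ * x₂) -
        g₄ * (x₁ + x₂) ^ 2 - g₃ * (x₁ + x₂) - g₂] := by
    unfold kum
    rw [cA0, cA1, cB1, cg2, cg3, cg4, neg_neg]
  rw [hkum] at h2 h3
  have hmax : w ((![1, x₁ + x₂, x₁ * x₂, b₁ ^ 2 - (x₁ + x₂) ^ 3 + (x₁ + x₂) * (x₁ * x₂) -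
        g₄ * (x₁ + x₂) ^ 2 - g₃ * (x₁ + x₂) - g₂] : Fin 4 → Ω) l) ≤ max 1 (w (x₁ + x₂)) := by
    fin_cases l
    · exact (map_one w).le.trans (le_max_left _ _)
    · exact le_max_right _ _
    · exact absurd h2 (lt_irrefl _)
    · exact absurd h3 (lt_irrefl _)
  have q2 := h2.trans_le hmax
  have q3 := h3.trans_le hmax
  change w (x₁ * x₂) < _ at q2
  change w (b₁ ^ 2 - (x₁ + x₂) ^ 3 + (x₁ + x₂) * (x₁ * x₂) -
        g₄ * (x₁ + x₂) ^ 2 - g₃ * (x₁ + x₂) - g₂) < _ at q3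
  rw [hw, hw] at q2 q3
  have hAj : A.map j = (X - C (j a₁)) * (X - C (j a₂)) := by
    rw [hAA]
    simp
  have hBj : B.map j = C (j b₁) * X + C (j b₀) := by
    rw [hBB]
    simp
  have hdj : (X - C (j a₁)) * (X - C (j a₂)) ∣ (B.map j) ^ 2 - f.map j := by
    rw [← hAj]
    have := Polynomial.map_dvd j hM.dvd
    simpa only [Polynomial.map_sub, Polynomial.map_pow] using this
  have hint : ∀ k, ‖j (θ k)‖ ≤ 1 := hT.int
  have hdn : ∀ k, ‖j (θ k - θ 0)‖ ≤ 1 := by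
    intro k
    rw [map_sub]
    exact nsub_le (hint k) (hint 0)
  have hd1n : ‖j d₁‖ < 1 := by
    rw [hd1, map_sub, norm_sub_rev]
    exact hT.near
  have m2 : ∀ x y : L, ‖x‖ ≤ 1 → ‖y‖ ≤ 1 → ‖x * y‖ ≤ 1 := by
    intro x y hx hy
    rw [norm_mul]
    exact mul_le_one₀ hx (norm_nonneg _) hy
  have hj2 : ‖j d₂‖ ≤ 1 := hdn 2
  have hj3 : ‖j d₃‖ ≤ 1 := hdn 3
  have hj4 : ‖j d₄‖ ≤ 1 := hdn 4
  have hg4n : ‖j g₄‖ ≤ 1 := by
    rw [hg4, map_neg, norm_neg, map_add, map_add, map_add]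
    exact nadd_le (nadd_le (nadd_le hd1n.le hj2) hj3) hj4
  have hg3n : ‖j g₃‖ ≤ 1 := by
    rw [hg3]
    simp only [map_add, map_mul]
    exact nadd_le (nadd_le (nadd_le (nadd_le (nadd_le (m2 _ _ hd1n.le hj2) (m2 _ _ hd1n.le hj3))
      (m2 _ _ hd1n.le hj4)) (m2 _ _ hj2 hj3)) (m2 _ _ hj2 hj4)) (m2 _ _ hj3 hj4)
  have htwo : ‖(2 : L)‖ = 1 := hT.two
  have h20 : (2 : L) ≠ 0 := by
    intro h
    rw [h, norm_zero] at htwo
    exact zero_ne_one htwo
  have hg2n : ‖j g₂ - (hh (fun k => j (θ k))).coeff 0‖ < 1 := by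
    have e1 : (hh (fun k => j (θ k))).coeff 0 =
        -((j d₂ - j d₁ / 2) * (j d₃ - j d₁ / 2) * (j d₄ - j d₁ / 2)) := by
      rw [coeff_zero_eq_eval_zero]
      unfold hh ctr
      rw [hd1, hd2, hd3, hd4]
      simp only [eval_mul, eval_sub, eval_X, eval_C, map_sub]
      field_simp
      ring
    have e2 : j g₂ - (hh (fun k => j (θ k))).coeff 0 = j d₁ * (-(j d₂ * j d₃ + j d₂ * j d₄ +
        j d₃ * j d₄) - (j d₂ * j d₃ + j d₂ * j d₄ + j d₃ * j d₄) / 2 +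
        j d₁ * (j d₂ + j d₃ + j d₄) / 4 - j d₁ ^ 2 / 8) := by
      have h40 : (4 : L) ≠ 0 := by
        have : (4 : L) = 2 * 2 := by norm_num
        rw [this]
        exact mul_ne_zero h20 h20
      have h80 : (8 : L) ≠ 0 := by
        have : (8 : L) = 2 * 4 := by norm_num
        rw [this]
        exact mul_ne_zero h20 h40
      rw [e1, hg2]
      simp only [map_neg, map_add, map_mul]
      field_simp
      ring
    rw [e2, norm_mul]
    have h4 : ‖(4 : L)‖ = 1 := by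
      have : (4 : L) = 2 * 2 := by norm_num
      rw [this, norm_mul, htwo, one_mul]
    have h8 : ‖(8 : L)‖ = 1 := by
      have : (8 : L) = 2 * 4 := by norm_num
      rw [this, norm_mul, htwo, h4, one_mul]
    have hE : ‖j d₂ * j d₃ + j d₂ * j d₄ + j d₃ * j d₄‖ ≤ 1 :=
      nadd_le (nadd_le (m2 _ _ hj2 hj3) (m2 _ _ hj2 hj4)) (m2 _ _ hj3 hj4)
    apply mul_lt_one_of_nonneg_of_lt_one_left (norm_nonneg _) hd1n
    apply nsub_le
    · apply nadd_le
      · apply nsub_le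
        · rw [norm_neg]
          exact hE
        · rw [norm_div, htwo, div_one]
          exact hE
      · rw [norm_div, h4, div_one]
        exact m2 _ _ hd1n.le (nadd_le (nadd_le hj2 hj3) hj4)
    · rw [norm_div, h8, div_one, norm_pow]
      exact pow_le_one₀ (norm_nonneg _) hd1n.le
  rw [hAj] at hm
  refine lcase PMU TND TCH (f.map j) (fun k => j (θ k)) s hT hs (j a₁) (j a₂) (B.map j) (j b₁)
    (j b₀) (j g₂) (j g₃) (j g₄) hBj hdj hg3n hg4n hg2n (j x₁) (j x₂) ?_ ?_ ?_ ?_ m hm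
  · rw [hx1, map_sub]
  · rw [hx2, map_sub]
  · rw [← map_mul, ← map_add]
    exact q2
  · rw [← map_add]
    have e : j b₁ ^ 2 - j (x₁ + x₂) ^ 3 + j (x₁ + x₂) * (j x₁ * j x₂) - j g₄ * j (x₁ + x₂) ^ 2 -
        j g₃ * j (x₁ + x₂) - j g₂ = j (b₁ ^ 2 - (x₁ + x₂) ^ 3 + (x₁ + x₂) * (x₁ * x₂) -
        g₄ * (x₁ + x₂) ^ 2 - g₃ * (x₁ + x₂) - g₂) := by
      simp only [map_add, map_sub, map_mul, map_pow]
    rw [e]
    exact q3

end Pool.Agent.KDD.H47
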